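import Pool.Agent.Helper26_S1S3.Chains

/-!
# Affine chains in the standard simplex and their barycentric subdivision
-/

set_option autoImplicit false
set_option linter.unusedSectionVars false

open Set

noncomputable section

namespace Pool.Agent.S1S3

/-- extension by linearity -/
def liftZ {α M : Type} [AddCommGroup M] (f : α → M) : (α →₀ ℤ) →+ M :=
  Finsupp.liftAddHom fun a => zmultiplesHom M (f a)

theorem liftZ_single {α M : Type} [AddCommGroup M] (f : α → M) (a : α) (n : ℤ) :
    liftZ f (Finsupp.single a n) = n • f a := by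
  simp [liftZ]

theorem liftZ_single_one {α M : Type} [AddCommGroup M] (f : α → M) (a : α) :
    liftZ f (Finsupp.single a 1) = f a := by
  rw [liftZ_single, one_smul]

theorem ext_single_one {α M : Type} [AddCommGroup M] {f g : (α →₀ ℤ) →+ M}
    (h : ∀ a, f (Finsupp.single a 1) = g (Finsupp.single a 1)) : f = g := by
  ext a
  exact h a

theorem eq_of_single_one {α M : Type} [AddCommGroup M] (f g : (α →₀ ℤ) →+ M)
    (h : ∀ a, f (Finsupp.single a 1) = g (Finsupp.single a 1)) (c : α →₀ ℤ) : f c = g c := by
  rw [ext_single_one h]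

/-- the standard simplex as a type -/
abbrev Dl (N : ℕ) : Type := stdSimplex ℝ (Fin (N + 1))

/-- affine chains in the standard simplex -/
abbrev AC (k N : ℕ) : Type := (Fin (k + 1) → Dl N) →₀ ℤ

/-- the affine simplex with given vertices -/
def real {k N : ℕ} (v : Fin (k + 1) → Dl N) : C(Dl k, Dl N) where
  toFun t := ⟨∑ i, t.1 i • (v i).1, by
    refine (convex_stdSimplex ℝ (Fin (N + 1))).sum_mem (fun i _ => t.2.1 i) t.2.2
      (fun i _ => (v i).2)⟩
  continuous_toFun := by
    refine Continuous.subtype_mk ?_ _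
    refine continuous_finsetSum _ fun i _ => ?_
    exact ((continuous_apply i).comp continuous_subtype_val).smul continuous_const

theorem real_val {k N : ℕ} (v : Fin (k + 1) → Dl N) (t : Dl k) :
    (real v t).1 = ∑ i, t.1 i • (v i).1 := rfl

/-- the vertices of the standard simplex -/
def vert (k : ℕ) : Fin (k + 1) → Dl k := fun i => ⟨Pi.single i 1, single_mem_stdSimplex ℝ i⟩

theorem real_vert {k N : ℕ} (v : Fin (k + 1) → Dl N) (i : Fin (k + 1)) :
    real v (vert k i) = v i := by
  apply Subtype.ext
  rw [real_val]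
  simp only [vert]
  rw [Finset.sum_eq_single i]
  · simp
  · intro j _ hj
    simp [Pi.single_eq_of_ne hj]
  · simp

theorem real_vert_eq (k : ℕ) : real (vert k) = ContinuousMap.id (Dl k) := by
  apply ContinuousMap.ext
  intro t
  apply Subtype.ext
  rw [real_val]
  ext j
  simp only [vert, Finset.sum_apply, Pi.smul_apply, smul_eq_mul, ContinuousMap.id_apply]
  rw [Finset.sum_eq_single j]
  · simp
  · intro i _ hi
    simp [Pi.single_eq_of_ne (Ne.symm hi)]
  · simp

theorem real_comp {k N M : ℕ} (v : Fin (k + 1) → Dl N) (w : Fin (N + 1) → Dl M) :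
    (real w).comp (real v) = real fun i => real w (v i) := by
  apply ContinuousMap.ext
  intro t
  apply Subtype.ext
  rw [ContinuousMap.comp_apply, real_val, real_val]
  simp only [real_val]
  simp only [Finset.sum_apply, Pi.smul_apply, smul_eq_mul, Finset.sum_smul, Finset.smul_sum,
    smul_smul]
  rw [Finset.sum_comm]

theorem real_faceC {k N : ℕ} (v : Fin (k + 2) → Dl N) (i : Fin (k + 2)) :
    (real v).comp (faceC k i) = real fun j => v (i.succAbove j) := by
  apply ContinuousMap.ext
  intro t
  apply Subtype.ext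
  rw [ContinuousMap.comp_apply, real_val, real_val]
  have h : ∀ j, (faceC k i t).1 j =
      ∑ l ∈ Finset.univ.filter (fun l => i.succAbove l = j), t.1 l := by
    intro j
    have := FunOnFinite.linearMap_apply_apply ℝ ℝ i.succAbove t.1 j
    exact this
  simp only [h]
  rw [Fin.sum_univ_succAbove _ i]
  have h0 : (Finset.univ.filter (fun l => i.succAbove l = i)) = ∅ := by
    apply Finset.filter_eq_empty_iff.2
    intro l _
    exact Fin.succAbove_ne i l
  rw [h0, Finset.sum_empty, zero_smul, zero_add]
  refine Finset.sum_congr rfl fun j _ => ?_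
  have h1 : (Finset.univ.filter (fun l => i.succAbove l = i.succAbove j)) = {j} := by
    ext l
    simp
  rw [h1, Finset.sum_singleton]

/-! ### operators on affine chains -/

/-- the boundary of affine chains -/
def bdA (k : ℕ) {N : ℕ} : AC (k + 1) N →+ AC k N :=
  liftZ fun v => ∑ i : Fin (k + 2), ((-1 : ℤ) ^ (i : ℕ)) •
    (Finsupp.single (fun j => v (i.succAbove j)) 1 : AC k N)

/-- the cone with apex `b` -/
def cone {N : ℕ} (b : Dl N) (k : ℕ) : AC k N →+ AC (k + 1) N :=
  liftZ fun v => Finsupp.single (Fin.cons b v) 1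

/-- augmentation of `0`-chains -/
def augA {N : ℕ} : AC 0 N →+ ℤ := liftZ fun _ => 1

theorem bdA_single {k N : ℕ} (v : Fin (k + 2) → Dl N) :
    bdA k (Finsupp.single v 1) = ∑ i : Fin (k + 2), ((-1 : ℤ) ^ (i : ℕ)) •
      (Finsupp.single (fun j => v (i.succAbove j)) 1 : AC k N) := by
  rw [bdA, liftZ_single_one]

theorem cone_single {k N : ℕ} (b : Dl N) (v : Fin (k + 1) → Dl N) :
    cone b k (Finsupp.single v 1) = Finsupp.single (Fin.cons b v) 1 := by
  rw [cone, liftZ_single_one]

theorem bdA_cone_zero {N : ℕ} (b : Dl N) (c : AC 0 N) :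
    bdA 0 (cone b 0 c) = c - augA c • (Finsupp.single (fun _ => b) 1 : AC 0 N) := by
  let f : AC 0 N →+ AC 0 N := (bdA 0).comp (cone b 0)
  let g : AC 0 N →+ AC 0 N := AddMonoidHom.id _ -
    ((zmultiplesHom (AC 0 N)) (Finsupp.single (fun _ => b) 1)).comp augA
  have h : f c = g c := by
    apply eq_of_single_one
    intro v
    simp only [f, g, AddMonoidHom.comp_apply, cone_single, AddMonoidHom.sub_apply,
      AddMonoidHom.id_apply, zmultiplesHom_apply]
    rw [bdA_single, Fin.sum_univ_two, augA, liftZ_single_one]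
    simp only [Fin.val_zero, pow_zero, one_smul, Fin.val_one, pow_one, neg_smul]
    have h1 : (fun j : Fin (0 + 1) => (Fin.cons b v : Fin 2 → Dl N)
        ((0 : Fin 2).succAbove j)) = v := by
      ext j : 1
      fin_cases j
      rfl
    have h2 : (fun j : Fin (0 + 1) => (Fin.cons b v : Fin 2 → Dl N)
        ((1 : Fin 2).succAbove j)) = fun _ => b := by
      ext j : 1
      fin_cases j
      rfl
    rw [sub_eq_add_neg]
    exact congrArg₂ (fun x y => Finsupp.single x (1 : ℤ) + -Finsupp.single y (1 : ℤ)) h1 h2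
  exact h

theorem bdA_cone {k N : ℕ} (b : Dl N) (c : AC (k + 1) N) :
    bdA (k + 1) (cone b (k + 1) c) = c - cone b k (bdA k c) := by
  let f : AC (k + 1) N →+ AC (k + 1) N := (bdA (k + 1)).comp (cone b (k + 1))
  let g : AC (k + 1) N →+ AC (k + 1) N := AddMonoidHom.id _ - (cone b k).comp (bdA k)
  have h : f c = g c := by
    apply eq_of_single_one
    intro v
    simp only [f, g, AddMonoidHom.comp_apply, cone_single, AddMonoidHom.sub_apply,
      AddMonoidHom.id_apply]
    rw [bdA_single, Fin.sum_univ_succ, bdA_single, map_sum]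
    simp only [Fin.val_zero, pow_zero, one_smul, map_zsmul, cone_single]
    rw [sub_eq_add_neg, ← Finset.sum_neg_distrib]
    congr 1
    refine Finset.sum_congr rfl fun i _ => ?_
    rw [Fin.val_succ, pow_succ, mul_neg_one, neg_smul]
    congr 3
    ext j : 1
    refine Fin.cases ?_ (fun j => ?_) j
    · rfl
    · rw [Fin.succ_succAbove_succ]
      rfl
  exact h

theorem augA_bdA {N : ℕ} (c : AC 1 N) : augA (bdA 0 c) = 0 := by
  let f : AC 1 N →+ ℤ := augA.comp (bdA 0)
  have h : f c = (0 : AC 1 N →+ ℤ) c := by
    apply eq_of_single_one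
    intro v
    simp only [f, AddMonoidHom.comp_apply, AddMonoidHom.zero_apply]
    rw [bdA_single, Fin.sum_univ_two, map_add, map_zsmul, map_zsmul, augA, liftZ_single_one,
      liftZ_single_one]
    simp
  exact h

theorem bdA_bdA {k N : ℕ} (c : AC (k + 2) N) : bdA k (bdA (k + 1) c) = 0 := by
  -- follows from the cone formula? we prove it directly by the standard cancellation
  let f : AC (k + 2) N →+ AC k N := (bdA k).comp (bdA (k + 1))
  have h : f c = (0 : AC (k + 2) N →+ AC k N) c := by
    apply eq_of_single_one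
    intro v
    simp only [f, AddMonoidHom.comp_apply, AddMonoidHom.zero_apply]
    rw [bdA_single, map_sum]
    simp only [map_zsmul, bdA_single, Finset.smul_sum, smul_smul]
    rw [← Finset.sum_product' (s := Finset.univ) (t := Finset.univ)
      (f := fun (i : Fin (k + 3)) (j : Fin (k + 2)) => ((-1 : ℤ) ^ (i : ℕ) * (-1 : ℤ) ^ (j : ℕ)) •
        (Finsupp.single (fun l : Fin (k + 1) => v (i.succAbove (j.succAbove l))) 1 : AC k N))]
    let S : Finset (Fin (k + 3) × Fin (k + 2)) :=
      Finset.univ.filter fun p => (p.2 : ℕ) < (p.1 : ℕ)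
    rw [Finset.univ_product_univ, ← Finset.sum_add_sum_compl S]
    rw [← eq_neg_iff_add_eq_zero, ← Finset.sum_neg_distrib]
    refine Finset.sum_bij (fun p hp => ((p.2.castSucc : Fin (k + 3)),
      (p.1.pred (by
        intro h0
        have h1 : (p.2 : ℕ) < (p.1 : ℕ) := by simpa [S] using hp
        rw [h0] at h1
        simp at h1) : Fin (k + 2)))) ?_ ?_ ?_ ?_
    · rintro ⟨i, j⟩ hp
      have h1 : (j : ℕ) < (i : ℕ) := by simpa [S] using hp
      simp only [S, Finset.compl_filter, Finset.mem_filter, Finset.mem_univ, true_and,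
        Fin.val_pred, Fin.val_castSucc, not_lt]
      omega
    · rintro ⟨i, j⟩ hp ⟨i', j'⟩ hp' h
      have h1 : (j : ℕ) < (i : ℕ) := by simpa [S] using hp
      have h1' : (j' : ℕ) < (i' : ℕ) := by simpa [S] using hp'
      simp only [Prod.mk.injEq, Fin.castSucc_inj] at h
      obtain ⟨h2, h3⟩ := h
      have h4 : (i : ℕ) = i' := by
        have := congrArg Fin.val h3
        simp only [Fin.val_pred] at this
        omega
      exact Prod.ext (Fin.ext h4) h2
    · rintro ⟨i, j⟩ hp
      have h1 : (i : ℕ) ≤ j := by simpa [S] using hp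
      refine ⟨(j.succ, ⟨i, by omega⟩), ?_, ?_⟩
      · simp only [S, Finset.mem_filter, Finset.mem_univ, true_and, Fin.val_succ]
        omega
      · simp
    · rintro ⟨i, j⟩ hp
      have h1 : (j : ℕ) < (i : ℕ) := by simpa [S] using hp
      simp only
      have hi : (i : ℕ) ≠ 0 := by omega
      have h2 : ∀ l : Fin (k + 1), i.succAbove (j.succAbove l) =
          (j.castSucc).succAbove ((i.pred (fun h0 => hi (by rw [h0]; rfl))).succAbove l) := by
        intro l
        apply Fin.ext
        simp only [Fin.succAbove, Fin.lt_def, Fin.val_castSucc, Fin.val_pred]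
        split_ifs <;> simp_all <;> omega
      simp only [h2]
      rw [← neg_smul]
      congr 1
      simp only [Fin.val_castSucc, Fin.val_pred]
      have h3 : (i : ℕ) = ((i : ℕ) - 1) + 1 := by omega
      rw [h3, pow_succ]
      simp only [add_tsub_cancel_right]
      ring
  exact h

end Pool.Agent.S1S3
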