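import Pool.Agent.Helper26_S1S3.BrouGeo

/-!
# Module BROU
-/

set_option autoImplicit false
set_option linter.unusedSectionVars false

open scoped Topology
open Set Topology

noncomputable section

namespace Pool.Agent.S1S3.Brou

/-- `XT` in the coordinates inverted about `c` -/
def Ph (c : Eu 4) (y : XT) : Eu 4 := inv (pol y - c)

theorem continuousAt_Ph {v y : XT} (h : y ≠ v) : ContinuousAt (Ph (pol v)) y := by
  have h1 : pol y - pol v ≠ 0 := sub_ne_zero.2 fun h2 => h (pol_injective h2)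
  exact ContinuousAt.comp (g := inv) (continuousAt_inv h1)
    (continuous_pol.sub continuous_const).continuousAt

theorem Ph_injective (c : Eu 4) : Function.Injective (Ph c) := fun _ _ h =>
  pol_injective (sub_left_injective (inv_injective h))

theorem norm_Ph (c : Eu 4) (y : XT) : ‖Ph c y‖ = ‖pol y - c‖⁻¹ := norm_inv' _

/-- a compact piece of `XT` -/
theorem isCompact_near {c : Eu 4} {r : ℝ} (h : r < ‖c‖) :
    IsCompact {y : XT | ‖pol y - c‖ ≤ r} := by
  have h0 : ∀ x ∈ Metric.closedBall c r, x ≠ 0 := by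
    intro x hx hx0
    rw [hx0, mem_closedBall_iff_norm, zero_sub, norm_neg] at hx
    linarith
  have h1 : {y : XT | ‖pol y - c‖ ≤ r} = unpol '' Metric.closedBall c r := by
    ext y
    rw [mem_image]
    constructor
    · intro hy
      exact ⟨pol y, by rw [mem_closedBall_iff_norm]; exact hy, unpol_pol y⟩
    · rintro ⟨x, hx, rfl⟩
      change ‖pol (unpol x) - c‖ ≤ r
      rw [pol_unpol (h0 x hx)]
      exact mem_closedBall_iff_norm.1 hx
  rw [h1]
  exact (isCompact_closedBall _ _).image_of_continuousOn fun x hx =>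
    (continuousAt_unpol (h0 x hx)).continuousWithinAt

/-- points of `XT` far out are far from `c` -/
theorem exists_far {c : Eu 4} {r : ℝ} (hr : 0 < r) (h : r < ‖c‖) :
    ∃ T : ℝ, ∀ y : XT, T ≤ |y.1| → r ≤ ‖pol y - c‖ := by
  refine ⟨‖c‖ + r + (‖c‖ - r)⁻¹, fun y hy => ?_⟩
  have hc : 0 < ‖c‖ - r := by linarith
  have hi : 0 < (‖c‖ - r)⁻¹ := inv_pos.2 hc
  rcases le_abs.1 hy with h1 | h1
  · have h2 : y.1 + 1 ≤ Real.exp y.1 := Real.add_one_le_exp _
    have h3 : ‖pol y‖ - ‖c‖ ≤ ‖pol y - c‖ := norm_sub_norm_le _ _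
    rw [norm_pol] at h3
    linarith
  · have h2 : -y.1 + 1 ≤ Real.exp (-y.1) := Real.add_one_le_exp _
    have h3 : ‖c‖ - ‖pol y‖ ≤ ‖pol y - c‖ := by
      rw [norm_sub_rev]
      exact norm_sub_norm_le _ _
    rw [norm_pol] at h3
    have h4 : Real.exp y.1 ≤ ‖c‖ - r := by
      have h5 : (‖c‖ - r)⁻¹ ≤ Real.exp (-y.1) := by
        have := norm_nonneg c
        linarith
      rw [Real.exp_neg] at h5
      exact (inv_le_inv₀ hc (Real.exp_pos _)).1 h5
    linarith

section

variable {P : Type} [TopologicalSpace P] {K U V : Set XT} (e : P ≃ₜ K) (ℓ : C(P, ℝ))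
  (α β : C(P, Circle))
  (hΨ : IsHomeomorph (fun p : {p : P // α p ≠ 1} =>
      ((⟨α p, p.2⟩, β p, ℓ p) : {z : Circle // z ≠ 1} × Circle × ℝ)))

/-- the point of `P` with given coordinates -/
def pt (z : {z : Circle // z ≠ 1} × Circle × ℝ) : {p : P // α p ≠ 1} := (hΨ.homeomorph _).symm z

theorem pt_spec (z : {z : Circle // z ≠ 1} × Circle × ℝ) :
    α (pt ℓ α β hΨ z).1 = z.1 ∧ β (pt ℓ α β hΨ z).1 = z.2.1 ∧ ℓ (pt ℓ α β hΨ z).1 = z.2.2 := by
  have h : (hΨ.homeomorph _) ((hΨ.homeomorph _).symm z) = z := Homeomorph.apply_symm_apply _ _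
  have h1 : (⟨α (pt ℓ α β hΨ z).1, (pt ℓ α β hΨ z).2⟩, β (pt ℓ α β hΨ z).1,
      ℓ (pt ℓ α β hΨ z).1) = z := h
  rw [Prod.ext_iff, Prod.ext_iff] at h1
  exact ⟨congrArg Subtype.val h1.1, h1.2.1, h1.2.2⟩

theorem pt_eq (p : P) (hp : α p ≠ 1) : (pt ℓ α β hΨ (⟨α p, hp⟩, β p, ℓ p)).1 = p := by
  have h : (hΨ.homeomorph _).symm ((hΨ.homeomorph _) ⟨p, hp⟩) = ⟨p, hp⟩ :=
    Homeomorph.symm_apply_apply _ _
  exact congrArg Subtype.val h

theorem continuous_pt : Continuous (pt ℓ α β hΨ) := (hΨ.homeomorph _).symm.continuous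

open Classical in
/-- the field as a function of `(α, β, ℓ)` -/
def FF (ρ : XT → Eu 4) (q : Eu 4) (t : Circle × Circle × ℝ) : Eu 4 :=
  if h : t.1 ≠ 1 then ρ (e (pt ℓ α β hΨ (⟨t.1, h⟩, t.2.1, t.2.2)).1 : K) else -q

theorem FF_apply {ρ : XT → Eu 4} {q : Eu 4} (h1 : ∀ p, α p = 1 → ρ (e p : K) = -q) (p : P) :
    FF e ℓ α β hΨ ρ q (α p, β p, ℓ p) = ρ (e p : K) := by
  by_cases hp : α p = 1
  · rw [FF, dif_neg (by simpa using hp), h1 p hp]
  · rw [FF, dif_pos (by simpa using hp)]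
    simp only
    rw [pt_eq]

theorem FF_ne {ρ : XT → Eu 4} {q : Eu 4} (hq : q ≠ 0) (h1 : ∀ y ∈ K, ρ y ≠ 0)
    (t : Circle × Circle × ℝ) : FF e ℓ α β hΨ ρ q t ≠ 0 := by
  unfold FF
  split_ifs with h
  · exact h1 _ (Subtype.coe_prop _)
  · exact neg_ne_zero.2 hq

theorem FF_main {ρ : XT → Eu 4} {q : Eu 4} (hρ : ∀ y ∈ K, ContinuousAt ρ y) {S : Set XT}
    (hK : IsClosed K) (hS : IsCompact S) (hS1 : ∀ p, α p = 1 → ((e p : K) : XT) ∉ S)
    (hS2 : ∀ y ∉ S, ρ y = -q) :
    Continuous (FF e ℓ α β hΨ ρ q) ∧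
      ∃ T : ℝ, ∀ t : Circle × Circle × ℝ, T ≤ |t.2.2| → FF e ℓ α β hΨ ρ q t = -q := by
  -- the compact set of parameters
  have hc1 : IsCompact {p : P | ((e p : K) : XT) ∈ S} := by
    have h2 : {p : P | ((e p : K) : XT) ∈ S} = e ⁻¹' (Subtype.val ⁻¹' S) := rfl
    rw [h2, e.isCompact_preimage, Subtype.isCompact_iff]
    rw [Subtype.image_preimage_coe]
    exact hS.inter_left hK
  let c : P → Circle × Circle × ℝ := fun p => (α p, β p, ℓ p)
  have hc : Continuous c := by fun_prop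
  have hc2 : IsCompact (c '' {p : P | ((e p : K) : XT) ∈ S}) := hc1.image hc
  have hout : ∀ t ∉ c '' {p : P | ((e p : K) : XT) ∈ S}, FF e ℓ α β hΨ ρ q t = -q := by
    intro t ht
    unfold FF
    split_ifs with h
    · apply hS2
      intro h3
      refine ht ⟨_, h3, ?_⟩
      obtain ⟨h4, h5, h6⟩ := pt_spec ℓ α β hΨ (⟨t.1, h⟩, t.2.1, t.2.2)
      exact Prod.ext h4 (Prod.ext h5 h6)
    · rfl
  constructor
  · rw [continuous_iff_continuousAt]
    intro t
    by_cases ht : t ∈ c '' {p : P | ((e p : K) : XT) ∈ S}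
    · have ht1 : t.1 ≠ 1 := by
        obtain ⟨p, hp, rfl⟩ := ht
        exact fun h => hS1 p h hp
      have hop : IsOpen {t : Circle × Circle × ℝ | t.1 ≠ 1} :=
        isOpen_ne.preimage continuous_fst
      refine ContinuousOn.continuousAt (s := {t : Circle × Circle × ℝ | t.1 ≠ 1}) ?_
        (hop.mem_nhds ht1)
      rw [continuousOn_iff_continuous_domRestrict]
      have h3 : ({t : Circle × Circle × ℝ | t.1 ≠ 1}).domRestrict (FF e ℓ α β hΨ ρ q) =
          fun t : {t : Circle × Circle × ℝ | t.1 ≠ 1} =>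
            ρ (e (pt ℓ α β hΨ (⟨t.1.1, t.2⟩, t.1.2.1, t.1.2.2)).1 : K) := by
        funext t
        have ht : (t : Circle × Circle × ℝ).1 ≠ 1 := t.2
        rw [domRestrict_apply, FF, dif_pos ht]
      rw [h3, continuous_iff_continuousAt]
      intro t
      have h4 : Continuous fun t : {t : Circle × Circle × ℝ | t.1 ≠ 1} =>
          ((e (pt ℓ α β hΨ (⟨t.1.1, t.2⟩, t.1.2.1, t.1.2.2)).1 : K) : XT) := by
        refine continuous_subtype_val.comp (e.continuous.comp (continuous_subtype_val.comp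
          ((continuous_pt ℓ α β hΨ).comp ?_)))
        refine Continuous.prodMk (Continuous.subtype_mk ?_ _) (Continuous.prodMk ?_ ?_)
        · fun_prop
        · fun_prop
        · fun_prop
      exact ContinuousAt.comp (g := ρ) (hρ _ (Subtype.coe_prop _)) h4.continuousAt
    · refine ContinuousAt.congr (f := fun _ => -q) continuousAt_const ?_
      filter_upwards [hc2.isClosed.isOpen_compl.mem_nhds ht] with s hs
      exact (hout s hs).symm
  · obtain ⟨C, hC⟩ := hc2.exists_bound_of_continuousOn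
      (f := fun t : Circle × Circle × ℝ => t.2.2) (by fun_prop)
    refine ⟨C + 1, fun t ht => hout t fun h => ?_⟩
    have := hC t h
    rw [Real.norm_eq_abs] at this
    linarith

end

/-- the extension of the height function -/
theorem exists_L {P : Type} [TopologicalSpace P] {K : Set XT} (hK : IsClosed K) (e : P ≃ₜ K)
    (ℓ : C(P, ℝ)) (ε C : ℝ) (hε : ε = 1 ∨ ε = -1)
    (hb : ∀ p, |(e p).1.1 - ε * ℓ p| ≤ C) (p₀ : P) :
    ∃ L : C(XT, ℝ), (∀ p, L (e p : K) = ℓ p) ∧ ∀ y : XT, |y.1| - C ≤ |L y| := by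
  let f : C(P, ℝ) := ⟨fun p => (e p).1.1 - ε * ℓ p, by fun_prop⟩
  have hi : IsClosedEmbedding fun p => ((e p : K) : XT) :=
    hK.isClosedEmbedding_subtypeVal.comp e.isClosedEmbedding
  obtain ⟨D, hD1, hD2⟩ := ContinuousMap.exists_extension_forall_mem_of_isClosedEmbedding f
    (t := Icc (-C) C) (fun p => abs_le.1 (hb p)) ⟨_, abs_le.1 (hb p₀)⟩ hi
  have hε2 : ε * ε = 1 := by rcases hε with h | h <;> rw [h] <;> norm_num
  have hε3 : |ε| = 1 := by rcases hε with h | h <;> rw [h] <;> norm_num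
  refine ⟨⟨fun y => ε * (y.1 - D y), by fun_prop⟩, fun p => ?_, fun y => ?_⟩
  · have h1 : D (e p : K) = (e p).1.1 - ε * ℓ p := congrFun hD2 p
    change ε * (((e p : K) : XT).1 - D (e p : K)) = ℓ p
    rw [h1, sub_sub_cancel, ← mul_assoc, hε2, one_mul]
  · change |y.1| - C ≤ |ε * (y.1 - D y)|
    rw [abs_mul, hε3, one_mul]
    have h1 : |D y| ≤ C := abs_le.2 (hD1 y)
    have h2 : |y.1| - |D y| ≤ |y.1 - D y| := abs_sub_abs_le_abs_sub _ _
    linarith

end Pool.Agent.S1S3.Brou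

namespace Pool.Agent.S1S3

open Brou

theorem brou : BrouStatement := by
  classical
  intro P _ K U V hU hV hUV hKe hKU hKV e ℓ α β ε C hε hb hΨ A B hA hB
  have hK : IsClosed K := hKe ▸ hU.inter hV
  obtain ⟨z, hz⟩ : ∃ z : Circle, z ≠ 1 := by
    refine ⟨Circle.exp Real.pi, fun h => ?_⟩
    have h1 := congrArg (fun z : Circle => (z : ℂ)) h
    simp only [Circle.coe_exp, Complex.exp_pi_mul_I, Circle.coe_one] at h1
    norm_num at h1
  let p₀ : P := (pt ℓ α β hΨ (⟨z, hz⟩, 1, 0)).1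
  have hp₀ : α p₀ ≠ 1 := (pt ℓ α β hΨ (⟨z, hz⟩, 1, 0)).2
  let q : XT := (e p₀ : K)
  -- the distance to the points with `α = 1`
  have hi : IsClosedEmbedding fun p => ((e p : K) : XT) :=
    hK.isClosedEmbedding_subtypeVal.comp e.isClosedEmbedding
  have hcl : IsClosed ((fun p => ((e p : K) : XT)) '' {p | α p = 1}) :=
    hi.isClosedMap _ (isClosed_eq α.continuous continuous_const)
  have hq : q ∉ (fun p => ((e p : K) : XT)) '' {p | α p = 1} := by
    rintro ⟨p, hp, hpq⟩
    exact hp₀ (by rw [← hi.injective hpq]; exact hp)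
  have hnear : unpol ⁻¹' ((fun p => ((e p : K) : XT)) '' {p | α p = 1})ᶜ ∈ 𝓝 (pol q) :=
    (continuousAt_unpol (pol_ne q)).preimage_mem_nhds (by
      rw [unpol_pol]
      exact hcl.isOpen_compl.mem_nhds hq)
  obtain ⟨δ₀, hδ₀, hball⟩ := Metric.mem_nhds_iff.1 hnear
  obtain ⟨δ, hδ, hδ1, hδ2⟩ : ∃ δ : ℝ, 0 < δ ∧ (∀ p, α p = 1 → δ ≤ ‖pol (e p : K) - pol q‖) ∧
      δ ≤ ‖pol q‖ := by
    refine ⟨min δ₀ ‖pol q‖, lt_min hδ₀ (norm_pos_iff.2 (pol_ne q)), fun p hp => ?_,
      min_le_right _ _⟩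
    by_contra hcon
    have h1 : pol (e p : K) ∈ Metric.ball (pol q) δ₀ := by
      rw [mem_ball_iff_norm]
      exact lt_of_lt_of_le (not_le.1 hcon) (min_le_left _ _)
    have h2 := hball h1
    rw [mem_preimage, unpol_pol] at h2
    exact h2 ⟨p, hp, rfl⟩
  have hopen : IsOpen (pol ⁻¹' Metric.ball (pol q) (δ / 8)) :=
    Metric.isOpen_ball.preimage continuous_pol
  have hqm : q ∈ pol ⁻¹' Metric.ball (pol q) (δ / 8) := by
    rw [mem_preimage]
    exact Metric.mem_ball_self (by positivity)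
  obtain ⟨v, hv1, hvV, hvK⟩ := mem_closure_iff.1 (hKV (e p₀).2) _ hopen hqm
  obtain ⟨u, hu1, huU, huK⟩ := mem_closure_iff.1 (hKU (e p₀).2) _ hopen hqm
  rw [mem_preimage, mem_ball_iff_norm] at hv1 hu1
  have hvU : v ∉ U := fun h => hvK (hKe ▸ ⟨h, hvV⟩)
  have huV : u ∉ V := fun h => huK (hKe ▸ ⟨huU, h⟩)
  have huv : u ≠ v := fun h => hvU (h ▸ huU)
  -- constants
  have hc : δ / 2 < ‖pol v‖ := by
    have h1 : ‖pol q‖ - ‖pol v‖ ≤ ‖pol q - pol v‖ := norm_sub_norm_le _ _
    rw [norm_sub_rev] at h1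
    linarith
  have hR : (δ / 2)⁻¹ < ‖Ph (pol v) u‖ := by
    rw [norm_Ph]
    have h1 : 0 < ‖pol u - pol v‖ := norm_pos_iff.2 (sub_ne_zero.2 fun h => huv (pol_injective h))
    refine (inv_lt_inv₀ (by positivity) h1).2 ?_
    have h2 : ‖pol u - pol v‖ ≤ ‖pol u - pol q‖ + ‖pol q - pol v‖ := norm_sub_le_norm_sub_add_norm_sub _ _ _
    rw [norm_sub_rev (pol q)] at h2
    linarith
  have hP0 : Ph (pol v) u ≠ 0 := by
    rw [← norm_pos_iff]
    exact lt_trans (by positivity) hR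
  let ρ : XT → Eu 4 := fun y => rr (δ / 2)⁻¹ (Ph (pol v) u) (Ph (pol v) y)
  have hρc : ∀ y, y ≠ v → ContinuousAt ρ y := fun y hy =>
    ContinuousAt.comp (g := rr (δ / 2)⁻¹ (Ph (pol v) u)) (continuous_rr _ _).continuousAt
      (continuousAt_Ph hy)
  have hρ0 : ∀ y, ρ y = 0 → y = u := fun y hy => Ph_injective _ (rr_eq_zero hR hy)
  have hKv : ∀ y ∈ K, y ≠ v := fun y hy h => hvK (h ▸ hy)
  have hfar : ∀ y, δ / 2 ≤ ‖pol y - pol v‖ → ρ y = -Ph (pol v) u := by
    intro y hy
    refine rr_small hR ?_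
    rw [norm_Ph]
    exact (inv_le_inv₀ (lt_of_lt_of_le (by positivity) hy) (by positivity)).2 hy
  have hα1 : ∀ p, α p = 1 → δ / 2 < ‖pol (e p : K) - pol v‖ := by
    intro p hp
    have h1 := hδ1 p hp
    have h2 : ‖pol (e p : K) - pol q‖ ≤ ‖pol (e p : K) - pol v‖ + ‖pol v - pol q‖ :=
      norm_sub_le_norm_sub_add_norm_sub _ _ _
    linarith
  obtain ⟨hFc, T, hT⟩ := FF_main e ℓ α β hΨ (ρ := ρ) (q := Ph (pol v) u)
    (fun y hy => hρc y (hKv y hy)) hK (isCompact_near hc)
    (fun p hp h => absurd (hα1 p hp) (not_lt.2 h)) (fun y hy => hfar y (not_le.1 hy).le)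
  have hFe : ∀ p, FF e ℓ α β hΨ ρ (Ph (pol v) u) (α p, β p, ℓ p) = ρ (e p : K) :=
    FF_apply e ℓ α β hΨ fun p hp => hfar _ (hα1 p hp).le
  have hF0 : ∀ t, FF e ℓ α β hΨ ρ (Ph (pol v) u) t ≠ 0 :=
    FF_ne e ℓ α β hΨ hP0 fun y hy h => huK (hρ0 y h ▸ hy)
  obtain ⟨L, hL1, hL2⟩ := exists_L hK e ℓ ε C hε hb p₀
  -- the field on `XT`
  let H : XT → Eu 4 := fun y => if h : y ∈ U then
    FF e ℓ α β hΨ ρ (Ph (pol v) u) (A ⟨y, h⟩, B ⟨y, h⟩, L y) else ρ y
  have hHU : ∀ y (h : y ∈ U), H y =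
      FF e ℓ α β hΨ ρ (Ph (pol v) u) (A ⟨y, h⟩, B ⟨y, h⟩, L y) := fun y h => dif_pos h
  have hHV : ∀ y ∈ V, H y = ρ y := by
    intro y hy
    by_cases h : y ∈ U
    · obtain ⟨p, hp⟩ := e.surjective ⟨y, hKe ▸ ⟨h, hy⟩⟩
      have hpy : ((e p : K) : XT) = y := by rw [hp]
      subst hpy
      rw [hHU _ h, hA p h, hB p h, hL1, hFe]
    · exact dif_neg h
  have hHn : ∀ y, y ∉ U → H y = ρ y := fun y h => dif_neg h
  have hH0 : ∀ y, H y ≠ 0 := by
    intro y
    by_cases h : y ∈ U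
    · rw [hHU y h]
      exact hF0 _
    · rw [hHn y h]
      exact fun h1 => h (hρ0 y h1 ▸ huU)
  have hHc : ∀ y, y ≠ v → ContinuousAt H y := by
    intro y hy
    have h1 : ContinuousWithinAt H U y := by
      by_cases h : y ∈ U
      · have h2 : ContinuousOn H U := by
          rw [continuousOn_iff_continuous_domRestrict]
          have h3 : U.domRestrict H = fun y : U =>
              FF e ℓ α β hΨ ρ (Ph (pol v) u) (A y, B y, L y) := by
            funext y
            exact hHU y y.2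
          rw [h3]
          exact hFc.comp (by fun_prop)
        exact h2 y h
      · exact continuousWithinAt_of_notMem_closure (by rwa [hU.closure_eq])
    have h2 : ContinuousWithinAt H V y := by
      by_cases h : y ∈ V
      · exact ((hρc y hy).continuousWithinAt).congr hHV (hHV y h)
      · exact continuousWithinAt_of_notMem_closure (by rwa [hV.closure_eq])
    have h3 := h1.union h2
    rwa [hUV, continuousWithinAt_univ] at h3
  obtain ⟨T₁, hT₁⟩ : ∃ T₁ : ℝ, ∀ y : XT, T₁ ≤ |y.1| → H y = -Ph (pol v) u := by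
    obtain ⟨T₂, hT₂⟩ := exists_far (c := pol v) (r := δ / 2) (by positivity) hc
    refine ⟨max (T + C) T₂, fun y hy => ?_⟩
    by_cases h : y ∈ U
    · rw [hHU y h]
      apply hT
      have h1 := hL2 y
      have h2 := (le_max_left _ _).trans hy
      simp only
      linarith
    · rw [hHn y h]
      exact hfar y (hT₂ y ((le_max_right _ _).trans hy))
  -- the field on `ℝ⁴`
  let G : Eu 4 → Eu 4 := fun x => if x = 0 ∨ pol v + inv x = 0 then -Ph (pol v) u else
    H (unpol (pol v + inv x))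
  have hG1 : ∀ x, x ≠ 0 → pol v + inv x ≠ 0 → G x = H (unpol (pol v + inv x)) := by
    intro x h1 h2
    exact if_neg (by rintro (h | h); exacts [h1 h, h2 h])
  have hG2 : ∀ x, (x ≠ 0 → pol v + inv x ≠ 0 → T₁ ≤ |Real.log ‖pol v + inv x‖|) →
      G x = -Ph (pol v) u := by
    intro x h
    by_cases h1 : x = 0
    · exact if_pos (Or.inl h1)
    · by_cases h2 : pol v + inv x = 0
      · exact if_pos (Or.inr h2)
      · rw [hG1 x h1 h2]
        apply hT₁
        rw [unpol_fst h2]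
        exact h h1 h2
  have hG0 : ∀ x, G x ≠ 0 := by
    intro x
    by_cases h : x = 0 ∨ pol v + inv x = 0
    · have : G x = -Ph (pol v) u := if_pos h
      rw [this]
      exact neg_ne_zero.2 hP0
    · have : G x = H (unpol (pol v + inv x)) := if_neg h
      rw [this]
      exact hH0 _
  have hGc : Continuous G := by
    rw [continuous_iff_continuousAt]
    intro x
    by_cases h1 : x = 0
    · -- near `0` the field is constant
      refine ContinuousAt.congr (f := fun _ => -Ph (pol v) u) continuousAt_const ?_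
      have hr : 0 < (‖pol v‖ + Real.exp |T₁|)⁻¹ := by positivity
      rw [h1]
      filter_upwards [Metric.ball_mem_nhds (0 : Eu 4) hr] with y hy
      refine (hG2 y fun hy0 _ => ?_).symm
      rw [mem_ball_zero_iff] at hy
      have hy1 : 0 < ‖y‖ := norm_pos_iff.2 hy0
      have h2 : ‖pol v‖ + Real.exp |T₁| < ‖y‖⁻¹ := by
        rwa [lt_inv_comm₀ (by positivity) hy1]
      have h3 : ‖inv y‖ - ‖pol v‖ ≤ ‖pol v + inv y‖ := by
        have := norm_sub_norm_le (inv y) (-pol v)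
        rw [norm_neg, sub_neg_eq_add, add_comm (inv y)] at this
        exact this
      rw [Brou.norm_inv'] at h3
      have h4 : |T₁| ≤ Real.log ‖pol v + inv y‖ := by
        rw [Real.le_log_iff_exp_le (lt_of_lt_of_le (Real.exp_pos |T₁|) (by linarith))]
        linarith
      exact (le_abs_self _).trans (h4.trans (le_abs_self _))
    · have hci : ContinuousAt (fun x => pol v + inv x) x :=
        continuousAt_const.add (continuousAt_inv h1)
      by_cases h2 : pol v + inv x = 0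
      · -- near the second exceptional point the field is constant
        refine ContinuousAt.congr (f := fun _ => -Ph (pol v) u) continuousAt_const ?_
        have h3 : ∀ᶠ y in 𝓝 x, ‖pol v + inv y‖ < Real.exp (-|T₁|) := by
          have h4 : ContinuousAt (fun y => ‖pol v + inv y‖) x := hci.norm
          apply h4.eventually_lt continuousAt_const
          rw [h2, norm_zero]
          exact Real.exp_pos _
        filter_upwards [h3] with y hy
        refine (hG2 y fun _ hy0 => ?_).symm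
        have h5 : Real.log ‖pol v + inv y‖ ≤ -|T₁| := by
          rw [Real.log_le_iff_le_exp (norm_pos_iff.2 hy0)]
          exact hy.le
        have h6 := neg_abs_le (Real.log ‖pol v + inv y‖)
        have h7 := le_abs_self T₁
        linarith
      · have h3 : ∀ᶠ y in 𝓝 x, y ≠ 0 ∧ pol v + inv y ≠ 0 := by
          have h31 : ∀ᶠ y in 𝓝 x, y ≠ 0 := isOpen_ne.mem_nhds h1
          exact h31.and (hci.eventually_ne h2)
        refine ContinuousAt.congr (f := fun y => H (unpol (pol v + inv y))) ?_ ?_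
        · have h4 : unpol (pol v + inv x) ≠ v := by
            intro h
            have h5 := congrArg pol h
            rw [pol_unpol h2] at h5
            exact inv_ne h1 (by simpa using h5)
          exact ContinuousAt.comp (g := H) (hHc _ h4)
            (ContinuousAt.comp (g := unpol) (continuousAt_unpol h2) hci)
        · filter_upwards [h3] with y hy
          exact (hG1 y hy.1 hy.2).symm
  -- the field near infinity
  obtain ⟨M, hM⟩ : ∃ M : ℝ, ∀ x, M ≤ ‖x‖ → G x = x - Ph (pol v) u := by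
    have h1 : unpol ⁻¹' Uᶜ ∈ 𝓝 (pol v) :=
      (continuousAt_unpol (pol_ne v)).preimage_mem_nhds (by
        rw [unpol_pol]
        exact hU.isOpen_compl.mem_nhds hvU)
    obtain ⟨η, hη, hηU⟩ := Metric.mem_nhds_iff.1 h1
    refine ⟨‖Ph (pol v) u‖ + η⁻¹ + ‖pol v‖⁻¹ + 1, fun x hx => ?_⟩
    have hv0 : 0 < ‖pol v‖ := norm_pos_iff.2 (pol_ne v)
    have hvi : 0 < ‖pol v‖⁻¹ := inv_pos.2 hv0
    have hηi : 0 < η⁻¹ := inv_pos.2 hη
    have hPn := norm_nonneg (Ph (pol v) u)
    have hx0 : 0 < ‖x‖ := by linarith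
    have hx1 : x ≠ 0 := norm_pos_iff.1 hx0
    have h2 : ‖inv x‖ < η := by
      rw [Brou.norm_inv']
      exact inv_lt_of_inv_lt₀ hη (by linarith)
    have h3 : ‖inv x‖ < ‖pol v‖ := by
      rw [Brou.norm_inv']
      exact inv_lt_of_inv_lt₀ hv0 (by linarith)
    have h4 : pol v + inv x ≠ 0 := by
      intro h
      have h5 : pol v = -inv x := eq_neg_of_add_eq_zero_left h
      rw [h5, norm_neg] at h3
      exact lt_irrefl _ h3
    have h5 : unpol (pol v + inv x) ∉ U := hηU (by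
      rw [mem_ball_iff_norm, add_sub_cancel_left]
      exact h2)
    rw [hG1 x hx1 h4, hHn _ h5]
    change rr (δ / 2)⁻¹ (Ph (pol v) u) (Ph (pol v) (unpol (pol v + inv x))) = _
    have h6 : Ph (pol v) (unpol (pol v + inv x)) = x := by
      rw [Ph, pol_unpol h4, add_sub_cancel_left, inv_inv']
    rw [h6]
    exact rr_large hR (by linarith)
  exact no_field G hGc hG0 _ M hM

end Pool.Agent.S1S3
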