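import Pool.Agent.Helper83_S1S3.Stmts
import Pool.Agent.Common_Brouwer.Schauder

/-!
# Polar coordinates, inversion and the radial field, for the module BROU
-/

set_option autoImplicit false
set_option linter.unusedSectionVars false

open scoped Topology
open Set

noncomputable section

namespace Pool.Agent.S1S3.Brou

/-- polar coordinates -/
def pol (y : XT) : Eu 4 := Real.exp y.1 • (y.2 : Eu 4)

theorem norm_pol (y : XT) : ‖pol y‖ = Real.exp y.1 := by
  rw [pol, norm_smul, norm_eq_of_mem_sphere, mul_one, Real.norm_of_nonneg (Real.exp_pos _).le]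

theorem pol_ne (y : XT) : pol y ≠ 0 := by
  rw [← norm_pos_iff, norm_pol]
  exact Real.exp_pos _

theorem continuous_pol : Continuous pol := by
  unfold pol
  fun_prop

/-- the inverse of the polar coordinates -/
def unpol (x : Eu 4) : XT :=
  if h : x ≠ 0 then (Real.log ‖x‖, ⟨‖x‖⁻¹ • x, by
    rw [mem_sphere_zero_iff_norm, norm_smul, norm_inv, norm_norm,
      inv_mul_cancel₀ (norm_ne_zero_iff.2 h)]⟩)
  else (0, ⟨EuclideanSpace.single 0 1, by simp⟩)

theorem unpol_fst {x : Eu 4} (h : x ≠ 0) : (unpol x).1 = Real.log ‖x‖ := by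
  rw [unpol, dif_pos h]

theorem unpol_snd {x : Eu 4} (h : x ≠ 0) : ((unpol x).2 : Eu 4) = ‖x‖⁻¹ • x := by
  rw [unpol, dif_pos h]

theorem pol_unpol {x : Eu 4} (h : x ≠ 0) : pol (unpol x) = x := by
  rw [pol, unpol_fst h, unpol_snd h, Real.exp_log (norm_pos_iff.2 h), smul_smul,
    mul_inv_cancel₀ (norm_ne_zero_iff.2 h), one_smul]

theorem unpol_pol (y : XT) : unpol (pol y) = y := by
  refine Prod.ext ?_ (Subtype.ext ?_)
  · rw [unpol_fst (pol_ne y), norm_pol, Real.log_exp]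
  · rw [unpol_snd (pol_ne y), norm_pol, pol, smul_smul, inv_mul_cancel₀ (Real.exp_pos _).ne',
      one_smul]

theorem pol_injective : Function.Injective pol := fun y z h => by
  rw [← unpol_pol y, h, unpol_pol]

theorem continuousAt_unpol {x : Eu 4} (h : x ≠ 0) : ContinuousAt unpol x := by
  have h1 : ContinuousOn unpol {x | x ≠ 0} := by
    rw [continuousOn_iff_continuous_domRestrict]
    have h2 : ({x : Eu 4 | x ≠ 0}).domRestrict unpol = fun x : {x : Eu 4 | x ≠ 0} =>
        ((Real.log ‖(x : Eu 4)‖, ⟨‖(x : Eu 4)‖⁻¹ • (x : Eu 4), by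
          rw [mem_sphere_zero_iff_norm, norm_smul, norm_inv, norm_norm,
            inv_mul_cancel₀ (norm_ne_zero_iff.2 x.2)]⟩) : XT) := by
      funext x
      have hx : (x : Eu 4) ≠ 0 := x.2
      rw [domRestrict_apply, unpol, dif_pos hx]
    rw [h2]
    refine Continuous.prodMk ?_ (Continuous.subtype_mk ?_ _)
    · exact Continuous.log (by fun_prop) fun x => norm_ne_zero_iff.2 x.2
    · exact (Continuous.inv₀ (by fun_prop) fun x => norm_ne_zero_iff.2 x.2).smul (by fun_prop)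
  exact h1.continuousAt (isOpen_ne.mem_nhds h)

/-- inversion -/
def inv (x : Eu 4) : Eu 4 := (‖x‖ ^ 2)⁻¹ • x

theorem norm_inv' (x : Eu 4) : ‖inv x‖ = ‖x‖⁻¹ := by
  by_cases h : x = 0
  · simp [inv, h]
  · have h' : ‖x‖ ≠ 0 := norm_ne_zero_iff.2 h
    rw [inv, norm_smul, norm_inv, Real.norm_of_nonneg (by positivity)]
    field_simp

theorem inv_inv' (x : Eu 4) : inv (inv x) = x := by
  by_cases h : x = 0
  · simp [inv, h]
  · have h' : ‖x‖ ≠ 0 := norm_ne_zero_iff.2 h
    rw [inv, norm_inv', inv, smul_smul]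
    have : ((‖x‖⁻¹ ^ 2)⁻¹ * (‖x‖ ^ 2)⁻¹) = 1 := by
      field_simp
    rw [this, one_smul]

theorem inv_ne {x : Eu 4} (h : x ≠ 0) : inv x ≠ 0 := by
  rw [← norm_pos_iff, norm_inv', inv_pos, norm_pos_iff]
  exact h

theorem inv_zero' : inv 0 = 0 := by simp [inv]

theorem inv_injective : Function.Injective inv := fun x y h => by
  rw [← inv_inv' x, h, inv_inv']

theorem continuousAt_inv {x : Eu 4} (h : x ≠ 0) : ContinuousAt inv x := by
  unfold inv
  have h' : ‖x‖ ^ 2 ≠ 0 := pow_ne_zero _ (norm_ne_zero_iff.2 h)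
  exact ((continuous_norm.pow 2).continuousAt.inv₀ h').smul continuousAt_id

/-- the radial cutoff -/
def mu (R P r : ℝ) : ℝ := min 1 (max 0 ((r - R) / (P - R)))

theorem continuous_mu (R P : ℝ) : Continuous (mu R P) := by
  unfold mu
  fun_prop

theorem mu_nonneg (R P r : ℝ) : 0 ≤ mu R P r := le_min zero_le_one (le_max_left _ _)

theorem mu_le_one (R P r : ℝ) : mu R P r ≤ 1 := min_le_left _ _

theorem mu_eq_zero {R P r : ℝ} (h : R < P) (hr : r ≤ R) : mu R P r = 0 := by
  have h1 : (r - R) / (P - R) ≤ 0 := div_nonpos_of_nonpos_of_nonneg (by linarith) (by linarith)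
  rw [mu, max_eq_left h1, min_eq_right zero_le_one]

theorem mu_eq_one {R P r : ℝ} (h : R < P) (hr : P ≤ r) : mu R P r = 1 := by
  have h1 : 1 ≤ (r - R) / (P - R) := by
    rw [le_div_iff₀ (by linarith)]
    linarith
  rw [mu, min_eq_left (le_max_of_le_right h1)]

/-- the radial field with its only zero at `q` -/
def rr (R : ℝ) (q x : Eu 4) : Eu 4 := mu R ‖q‖ ‖x‖ • x - q

theorem continuous_rr (R : ℝ) (q : Eu 4) : Continuous (rr R q) := by
  unfold rr
  have := continuous_mu R ‖q‖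
  fun_prop

theorem rr_small {R : ℝ} {q x : Eu 4} (h : R < ‖q‖) (hx : ‖x‖ ≤ R) : rr R q x = -q := by
  rw [rr, mu_eq_zero h hx, zero_smul, zero_sub]

theorem rr_large {R : ℝ} {q x : Eu 4} (h : R < ‖q‖) (hx : ‖q‖ ≤ ‖x‖) : rr R q x = x - q := by
  rw [rr, mu_eq_one h hx, one_smul]

theorem rr_eq_zero {R : ℝ} {q x : Eu 4} (h : R < ‖q‖) (hx : rr R q x = 0) :
    x = q := by
  have h1 : mu R ‖q‖ ‖x‖ • x = q := sub_eq_zero.1 hx
  by_cases h2 : ‖q‖ ≤ ‖x‖
  · rw [mu_eq_one h h2, one_smul] at h1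
    exact h1
  · exfalso
    have h3 := congrArg norm h1
    rw [norm_smul, Real.norm_of_nonneg (mu_nonneg _ _ _)] at h3
    have h4 : mu R ‖q‖ ‖x‖ * ‖x‖ ≤ 1 * ‖x‖ :=
      mul_le_mul_of_nonneg_right (mu_le_one _ _ _) (norm_nonneg _)
    linarith [not_le.1 h2]

/-- no continuous nowhere vanishing field is `x - q` outside a ball -/
theorem no_field (G : Eu 4 → Eu 4) (hG : Continuous G) (h0 : ∀ x, G x ≠ 0) (q : Eu 4) (M : ℝ)
    (hM : ∀ x, M ≤ ‖x‖ → G x = x - q) : False := by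
  let N : ℝ := max M (‖q‖ + 1)
  have hN0 : 0 < N := lt_of_lt_of_le (by positivity) (le_max_right _ _)
  let f : Eu 4 → Eu 4 := fun x => -((N * ‖G x‖⁻¹) • G x)
  have hf : Continuous f := by
    have h1 : Continuous fun x => ‖G x‖⁻¹ := Continuous.inv₀ (by fun_prop) fun x =>
      norm_ne_zero_iff.2 (h0 x)
    exact ((continuous_const.mul h1).smul hG).neg
  have hfn : ∀ x, ‖f x‖ = N := by
    intro x
    have h1 : ‖G x‖ ≠ 0 := norm_ne_zero_iff.2 (h0 x)
    simp only [f]
    rw [norm_neg, norm_smul, norm_mul, norm_inv, norm_norm, Real.norm_of_nonneg hN0.le,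
      mul_assoc, inv_mul_cancel₀ h1, mul_one]
  obtain ⟨x, -, hx⟩ := Pool.Agent.Common_Brouwer.schauder (K := Metric.closedBall (0 : Eu 4) N)
    (isCompact_closedBall _ _) (convex_closedBall _ _) ⟨0, by simpa using hN0.le⟩ hf.continuousOn
    (fun x _ => by rw [mem_closedBall_zero_iff, hfn])
  have hxn : ‖x‖ = N := by rw [← hx, hfn]
  have hGx : G x = x - q := hM x (by rw [hxn]; exact le_max_left _ _)
  have h1 : inner ℝ x x = -(N * ‖G x‖⁻¹) * inner ℝ (x - q) x := by
    have h5 : x = -((N * ‖G x‖⁻¹) • (x - q)) := by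
      rw [← hGx]
      exact hx.symm
    calc inner ℝ x x = inner ℝ (-((N * ‖G x‖⁻¹) • (x - q))) x := by rw [← h5]
      _ = -(N * ‖G x‖⁻¹) * inner ℝ (x - q) x := by
        rw [inner_neg_left, real_inner_smul_left]
        ring
  have h2 : 0 < inner ℝ (x - q) x := by
    rw [inner_sub_left, real_inner_self_eq_norm_sq, hxn]
    have h3 : inner ℝ q x ≤ ‖q‖ * N := by
      rw [← hxn]
      exact real_inner_le_norm _ _
    have h4 : ‖q‖ + 1 ≤ N := le_max_right _ _
    nlinarith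
  have h3 : 0 < N * ‖G x‖⁻¹ := mul_pos hN0 (inv_pos.2 (norm_pos_iff.2 (h0 x)))
  have h4 : 0 ≤ inner ℝ x x := real_inner_self_nonneg
  nlinarith [mul_pos h3 h2]

end Pool.Agent.S1S3.Brou
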