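import Pool.Agent.Helper83_S1S3.Hom

/-!
# Concrete singular chains and the split of the module MV

* `MV1Statement`: the concrete chain complex computes Mathlib's singular homology, naturally;
* `MV2Statement`: the small simplices theorem on the concrete chain complex;
* `MV3Statement`: `MV1Statement → MV2Statement → MVStatement`.
-/

set_option autoImplicit false
set_option linter.unusedSectionVars false

open scoped Manifold ContDiff Topology
open CategoryTheory Set

noncomputable section

namespace Pool.Agent.S1S3

/-- singular `n`-simplices of `X` -/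
abbrev Sx (n : ℕ) (X : Type) [TopologicalSpace X] : Type := C(stdSimplex ℝ (Fin (n + 1)), X)

/-- singular `n`-chains of `X` -/
abbrev Ch (n : ℕ) (X : Type) [TopologicalSpace X] : Type := Sx n X →₀ ℤ

/-- the `i`-th face inclusion `Δ^n → Δ^(n+1)` -/
def faceC (n : ℕ) (i : Fin (n + 2)) : C(stdSimplex ℝ (Fin (n + 1)), stdSimplex ℝ (Fin (n + 2))) :=
  ⟨stdSimplex.map i.succAbove, stdSimplex.continuous_map _⟩

/-- the boundary operator -/
def bd (n : ℕ) {X : Type} [TopologicalSpace X] : Ch (n + 1) X →+ Ch n X :=
  Finsupp.liftAddHom fun σ => ∑ i : Fin (n + 2),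
    ((-1 : ℤ) ^ (i : ℕ)) • Finsupp.singleAddHom (σ.comp (faceC n i))

/-- push forward of chains -/
def push (n : ℕ) {X Y : Type} [TopologicalSpace X] [TopologicalSpace Y] (f : C(X, Y)) :
    Ch n X →+ Ch n Y :=
  Finsupp.mapDomain.addMonoidHom fun σ => f.comp σ

theorem bd_single (n : ℕ) {X : Type} [TopologicalSpace X] (σ : Sx (n + 1) X) (a : ℤ) :
    bd n (Finsupp.single σ a) =
      ∑ i : Fin (n + 2), Finsupp.single (σ.comp (faceC n i)) ((-1 : ℤ) ^ (i : ℕ) * a) := by
  simp [bd]

theorem push_single (n : ℕ) {X Y : Type} [TopologicalSpace X] [TopologicalSpace Y] (f : C(X, Y))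
    (σ : Sx n X) (a : ℤ) : push n f (Finsupp.single σ a) = Finsupp.single (f.comp σ) a := by
  simp [push]

theorem bd_push (n : ℕ) {X Y : Type} [TopologicalSpace X] [TopologicalSpace Y] (f : C(X, Y))
    (c : Ch (n + 1) X) : bd n (push (n + 1) f c) = push n f (bd n c) := by
  induction c using Finsupp.induction_linear with
  | zero => simp
  | add c d hc hd => simp only [map_add, hc, hd]
  | single σ a =>
    rw [push_single, bd_single, bd_single, map_sum]
    simp only [push_single]
    rfl

theorem push_id (n : ℕ) {X : Type} [TopologicalSpace X] (c : Ch n X) :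
    push n (ContinuousMap.id X) c = c := by
  induction c using Finsupp.induction_linear with
  | zero => simp
  | add c d hc hd => simp only [map_add, hc, hd]
  | single σ a => rw [push_single]; rfl

theorem push_push (n : ℕ) {X Y Z : Type} [TopologicalSpace X] [TopologicalSpace Y]
    [TopologicalSpace Z] (f : C(X, Y)) (g : C(Y, Z)) (c : Ch n X) :
    push n g (push n f c) = push n (g.comp f) c := by
  induction c using Finsupp.induction_linear with
  | zero => simp
  | add c d hc hd => simp only [map_add, hc, hd]
  | single σ a => rw [push_single, push_single, push_single]; rfl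

/-- cycles -/
def Cyc (n : ℕ) (X : Type) [TopologicalSpace X] : AddSubgroup (Ch n X) :=
  match n with
  | 0 => ⊤
  | n + 1 => (bd n : Ch (n + 1) X →+ Ch n X).ker

/-- boundaries -/
def Bnd (n : ℕ) (X : Type) [TopologicalSpace X] : AddSubgroup (Ch n X) :=
  (bd n : Ch (n + 1) X →+ Ch n X).range

theorem push_mem_Cyc {n : ℕ} {X Y : Type} [TopologicalSpace X] [TopologicalSpace Y] (f : C(X, Y))
    {c : Ch n X} (h : c ∈ Cyc n X) : push n f c ∈ Cyc n Y := by
  cases n with
  | zero => exact AddSubgroup.mem_top _
  | succ n =>
    change bd n (push (n + 1) f c) = 0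
    have h' : bd n c = 0 := h
    rw [bd_push, h', map_zero]

/-- module MV1: the concrete chain complex computes Mathlib's singular homology, naturally -/
def MV1Statement : Prop :=
  ∃ cls : ∀ (n : ℕ) (X : Type) [TopologicalSpace X], Cyc n X →+ HH n X,
    (∀ (n : ℕ) (X : Type) [TopologicalSpace X], Function.Surjective (cls n X)) ∧
    (∀ (n : ℕ) (X : Type) [TopologicalSpace X] (c : Cyc n X),
      cls n X c = 0 ↔ (c : Ch n X) ∈ Bnd n X) ∧
    (∀ (n : ℕ) (X Y : Type) [TopologicalSpace X] [TopologicalSpace Y] (f : C(X, Y))
      (c : Cyc n X), Hm n f (cls n X c) = cls n Y ⟨push n f c, push_mem_Cyc f c.2⟩)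

/-- a chain which is the sum of a chain in `A` and a chain in `B` -/
def SmallCh {X : Type} [TopologicalSpace X] (A B : Set X) (n : ℕ) (c : Ch n X) : Prop :=
  ∃ (a : Ch n A) (b : Ch n B), c = push n (valC A) a + push n (valC B) b

/-- module MV2: the small simplices theorem (every `0`-chain is small, which is trivial) -/
def MV2Statement : Prop :=
  ∀ (X : Type) [TopologicalSpace X] (A B : Set X), IsOpen A → IsOpen B → A ∪ B = univ →
    ∀ (n : ℕ) (d : Ch (n + 1) X), SmallCh A B n (bd n d) →
      ∃ (d' : Ch (n + 1) X) (y : Ch (n + 2) X), SmallCh A B (n + 1) d' ∧ d = d' + bd (n + 1) y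

/-- module MV3: the Mayer–Vietoris sequence from the small simplices theorem -/
def MV3Statement : Prop := MV1Statement → MV2Statement → MVStatement

end Pool.Agent.S1S3
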