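import Pool.Agent.Helper26_S1S3.Subdiv

/-!
# The small simplices theorem
-/

set_option autoImplicit false
set_option linter.unusedSectionVars false

open Set

noncomputable section

namespace Pool.Agent.S1S3

/-! ### chains supported in a set of simplices -/

theorem liftZ_mem {α β : Type} {P : Set α} {Q : Set β} (f : α → (β →₀ ℤ))
    (hf : ∀ a ∈ P, f a ∈ Finsupp.supported ℤ ℤ Q) {c : α →₀ ℤ}
    (hc : c ∈ Finsupp.supported ℤ ℤ P) : liftZ f c ∈ Finsupp.supported ℤ ℤ Q := by
  have h : liftZ f c = c.sum fun a n => n • f a := by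
    simp only [liftZ, Finsupp.liftAddHom_apply]
    rfl
  rw [h, Finsupp.sum]
  refine Submodule.sum_mem _ fun a ha => ?_
  exact Submodule.smul_mem _ _ (hf a (hc ha))

theorem hom_mem {α β : Type} {P : Set α} {Q : Set β} (f : (α →₀ ℤ) →+ (β →₀ ℤ))
    (hf : ∀ a ∈ P, f (Finsupp.single a 1) ∈ Finsupp.supported ℤ ℤ Q) {c : α →₀ ℤ}
    (hc : c ∈ Finsupp.supported ℤ ℤ P) : f c ∈ Finsupp.supported ℤ ℤ Q := by
  have h : f = liftZ fun a => f (Finsupp.single a 1) := by
    apply ext_single_one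
    intro a
    rw [liftZ_single_one]
  rw [h]
  exact liftZ_mem _ hf hc

/-- affine simplices with vertices in `C` and mesh at most `δ` -/
def FineS (k : ℕ) {N : ℕ} (C : Set (Fin (N + 1) → ℝ)) (δ : ℝ) : Set (Fin (k + 1) → Dl N) :=
  {w | (∀ i, (w i).1 ∈ C) ∧ ∀ i j, dist (w i).1 (w j).1 ≤ δ}

theorem bar_mem {k N : ℕ} {v : Fin (k + 1) → Dl N} {C : Set (Fin (N + 1) → ℝ)} (hC : Convex ℝ C)
    (hv : ∀ i, (v i).1 ∈ C) (t : Dl k) : (real v t).1 ∈ C := by
  rw [real_val]
  exact hC.sum_mem (fun i _ => t.2.1 i) t.2.2 (fun i _ => hv i)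

theorem dist_bar {k N : ℕ} {v : Fin (k + 1) → Dl N} {δ : ℝ}
    (hv : ∀ i j, dist (v i).1 (v j).1 ≤ δ) (j : Fin (k + 1)) :
    dist (v j).1 (bar v).1 ≤ (k / (k + 1 : ℝ)) * δ := by
  have hk : (0 : ℝ) < k + 1 := by positivity
  have h1 : (v j).1 - (bar v).1 = ∑ i, (1 / (k + 1 : ℝ)) • ((v j).1 - (v i).1) := by
    rw [bar_val, ← Finset.smul_sum, ← Finset.smul_sum, Finset.sum_sub_distrib, Finset.sum_const,
      Finset.card_univ, Fintype.card_fin, smul_sub]
    congr 1
    rw [← Nat.cast_smul_eq_nsmul ℝ, smul_smul]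
    push_cast
    rw [one_div, inv_mul_cancel₀ hk.ne', one_smul]
  rw [dist_eq_norm, h1, Fin.sum_univ_succAbove _ j, sub_self, smul_zero, zero_add]
  refine (norm_sum_le _ _).trans ?_
  have h2 : ∀ i ∈ (Finset.univ : Finset (Fin k)),
      ‖(1 / (k + 1 : ℝ)) • ((v j).1 - (v (j.succAbove i)).1)‖ ≤ (1 / (k + 1 : ℝ)) * δ := by
    intro i _
    rw [norm_smul, Real.norm_of_nonneg (by positivity), ← dist_eq_norm]
    exact mul_le_mul_of_nonneg_left (hv _ _) (by positivity)
  refine (Finset.sum_le_card_nsmul _ _ _ h2).trans ?_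
  rw [Finset.card_univ, Fintype.card_fin, nsmul_eq_mul, ← mul_assoc]
  apply le_of_eq
  ring

theorem mesh : ∀ (k : ℕ) {N : ℕ} (v : Fin (k + 1) → Dl N) (C : Set (Fin (N + 1) → ℝ)) (δ : ℝ),
    Convex ℝ C → v ∈ FineS k C δ →
      sdA k (Finsupp.single v 1) ∈ Finsupp.supported ℤ ℤ (FineS k C ((k / (k + 1 : ℝ)) * δ))
  | 0, N, v, C, δ, hC, hv => by
    rw [sdA_zero]
    apply Finsupp.single_mem_supported
    refine ⟨hv.1, fun i j => ?_⟩
    have : i = j := by
      apply Fin.ext; omega
    rw [this]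
    simp
  | k + 1, N, v, C, δ, hC, hv => by
    have hδ : 0 ≤ δ := dist_nonneg.trans (hv.2 0 0)
    let r : ℝ := ((k + 1 : ℕ) / ((k + 1 : ℕ) + 1 : ℝ)) * δ
    let C' : Set (Fin (N + 1) → ℝ) := C ∩ Metric.closedBall (bar v).1 r
    have hC' : Convex ℝ C' := hC.inter (convex_closedBall _ _)
    have hr : (k / (k + 1 : ℝ)) * δ ≤ r := by
      refine mul_le_mul_of_nonneg_right ?_ hδ
      push_cast
      rw [div_le_div_iff₀ (by positivity) (by positivity)]
      nlinarith
    have hface : ∀ i : Fin (k + 2), (fun j => v (i.succAbove j)) ∈ FineS k C' δ := fun i =>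
      ⟨fun j => ⟨hv.1 _, dist_bar hv.2 _⟩, fun j l => hv.2 _ _⟩
    have hsum : sdA k (bdA k (Finsupp.single v 1)) ∈
        Finsupp.supported ℤ ℤ (FineS k C' ((k / (k + 1 : ℝ)) * δ)) := by
      rw [bdA_single, map_sum]
      refine Submodule.sum_mem _ fun i _ => ?_
      rw [map_zsmul]
      exact Submodule.smul_mem _ _ (mesh k _ C' δ hC' (hface i))
    rw [sdA_succ]
    refine hom_mem (cone (bar v) k) (fun w hw => ?_) hsum
    rw [cone_single]
    apply Finsupp.single_mem_supported
    have hr0 : 0 ≤ r := by positivity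
    refine ⟨fun i => ?_, fun i j => ?_⟩
    · refine Fin.cases ?_ (fun i => ?_) i
      · exact bar_mem hC hv.1 _
      · exact (hw.1 i).1
    · refine Fin.cases ?_ (fun i => ?_) i
      · refine Fin.cases ?_ (fun j => ?_) j
        · change dist (bar v).1 (bar v).1 ≤ r
          rw [dist_self]
          exact hr0
        · rw [dist_comm]
          exact (hw.1 j).2
      · refine Fin.cases ?_ (fun j => ?_) j
        · exact (hw.1 i).2
        · exact (hw.2 i j).trans hr

theorem mesh_iter {k N : ℕ} (v : Fin (k + 1) → Dl N) {δ : ℝ} (hv : ∀ i j, dist (v i).1 (v j).1 ≤ δ)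
    (m : ℕ) : (sdA k)^[m] (Finsupp.single v 1) ∈
      Finsupp.supported ℤ ℤ (FineS k univ ((k / (k + 1 : ℝ)) ^ m * δ)) := by
  induction m with
  | zero =>
    apply Finsupp.single_mem_supported
    exact ⟨fun _ => mem_univ _, by simpa using hv⟩
  | succ m ih =>
    rw [Function.iterate_succ_apply']
    refine hom_mem (sdA k) (fun w hw => ?_) ih
    have := mesh k w univ _ convex_univ hw
    rwa [pow_succ', mul_assoc]

/-! ### small chains -/

section

variable {X : Type} [TopologicalSpace X]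

/-- small chains as a subgroup -/
def smallSub (A B : Set X) (n : ℕ) : AddSubgroup (Ch n X) :=
  (push n (valC A)).range ⊔ (push n (valC B)).range

theorem small_iff {A B : Set X} {n : ℕ} {c : Ch n X} : SmallCh A B n c ↔ c ∈ smallSub A B n := by
  rw [smallSub, AddSubgroup.mem_sup]
  constructor
  · rintro ⟨a, b, rfl⟩
    exact ⟨_, ⟨a, rfl⟩, _, ⟨b, rfl⟩, rfl⟩
  · rintro ⟨_, ⟨a, rfl⟩, _, ⟨b, rfl⟩, h⟩
    exact ⟨a, b, h.symm⟩

theorem Sd_small {A B : Set X} {n : ℕ} {c : Ch n X} (h : SmallCh A B n c) :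
    SmallCh A B n (Sd n c) := by
  obtain ⟨a, b, rfl⟩ := h
  exact ⟨Sd n a, Sd n b, by rw [map_add, push_Sd, push_Sd]⟩

theorem Th_small {A B : Set X} {n : ℕ} {c : Ch n X} (h : SmallCh A B n c) :
    SmallCh A B (n + 1) (Th n c) := by
  obtain ⟨a, b, rfl⟩ := h
  exact ⟨Th n a, Th n b, by rw [map_add, push_Th, push_Th]⟩

theorem Sd_iter_small {A B : Set X} {n : ℕ} {c : Ch n X} (h : SmallCh A B n c) (m : ℕ) :
    SmallCh A B n ((Sd n)^[m] c) := by
  induction m with
  | zero => exact h
  | succ m ih =>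
    rw [Function.iterate_succ_apply']
    exact Sd_small ih

theorem small_single_of_range_left {A B : Set X} {n : ℕ} (τ : Sx n X) (h : ∀ t, τ t ∈ A) :
    SmallCh A B n (Finsupp.single τ 1) := by
  refine ⟨Finsupp.single ⟨fun t => ⟨τ t, h t⟩, by fun_prop⟩ 1, 0, ?_⟩
  rw [map_zero, add_zero, push_single]
  rfl

theorem small_single_of_range_right {A B : Set X} {n : ℕ} (τ : Sx n X) (h : ∀ t, τ t ∈ B) :
    SmallCh A B n (Finsupp.single τ 1) := by
  refine ⟨0, Finsupp.single ⟨fun t => ⟨τ t, h t⟩, by fun_prop⟩ 1, ?_⟩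
  rw [map_zero, zero_add, push_single]
  rfl

theorem Sd_iter_single {k : ℕ} (σ : Sx k X) (m : ℕ) :
    (Sd k)^[m] (Finsupp.single σ 1) =
      push k σ (re k ((sdA k)^[m] (Finsupp.single (vert k) 1))) := by
  induction m with
  | zero => exact single_eq_push σ
  | succ m ih =>
    rw [Function.iterate_succ_apply', Function.iterate_succ_apply', ih, ← push_Sd, Sd_re]

theorem exists_small_single {A B : Set X} (hA : IsOpen A) (hB : IsOpen B) (hAB : A ∪ B = univ)
    {k : ℕ} (σ : Sx k X) : ∃ m, SmallCh A B k ((Sd k)^[m] (Finsupp.single σ 1)) := by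
  -- Lebesgue number
  obtain ⟨δ, hδ, hL⟩ := lebesgue_number_lemma_of_metric (s := (univ : Set (Dl k)))
    (c := fun b : Bool => if b then σ ⁻¹' A else σ ⁻¹' B) isCompact_univ
    (by
      intro b
      cases b
      · exact hB.preimage σ.continuous
      · exact hA.preimage σ.continuous)
    (by
      intro t _
      have h : σ t ∈ A ∪ B := by rw [hAB]; exact mem_univ _
      rw [mem_iUnion]
      rcases h with h | h
      · exact ⟨true, h⟩
      · exact ⟨false, h⟩)
  -- the mesh of the iterated subdivision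
  obtain ⟨D, hD⟩ : ∃ D : ℝ, ∀ i j, dist (vert k i).1 (vert k j).1 ≤ D := by
    refine ⟨∑ i, ∑ j, dist (vert k i).1 (vert k j).1, fun i j => ?_⟩
    refine le_trans ?_ (Finset.single_le_sum (f := fun i => ∑ j, dist (vert k i).1 (vert k j).1)
      (fun i _ => Finset.sum_nonneg fun _ _ => dist_nonneg) (Finset.mem_univ i))
    exact Finset.single_le_sum (f := fun j => dist (vert k i).1 (vert k j).1)
      (fun _ _ => dist_nonneg) (Finset.mem_univ j)
  have hlim : Filter.Tendsto (fun m : ℕ => (k / (k + 1 : ℝ)) ^ m * D) Filter.atTop (nhds (0 * D)) :=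
    (tendsto_pow_atTop_nhds_zero_of_lt_one (by positivity)
      ((div_lt_one (by positivity)).2 (by linarith))).mul_const _
  rw [zero_mul] at hlim
  obtain ⟨m, hm⟩ := (hlim.eventually (gt_mem_nhds hδ)).exists
  refine ⟨m, ?_⟩
  rw [Sd_iter_single, small_iff]
  have hmem := mesh_iter (vert k) hD m
  -- every simplex in the support is small
  generalize (sdA k)^[m] (Finsupp.single (vert k) 1) = c at hmem
  have hc : c = c.sum fun w n => n • Finsupp.single w 1 := by
    conv_lhs => rw [← Finsupp.sum_single c]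
    simp only [Finsupp.smul_single, smul_eq_mul, mul_one]
  rw [hc, Finsupp.sum, map_sum, map_sum]
  refine AddSubgroup.sum_mem _ fun w hw => ?_
  rw [map_zsmul, map_zsmul]
  refine AddSubgroup.zsmul_mem _ ?_ _
  rw [re_single, push_single, ← small_iff]
  have hw' : w ∈ FineS k univ ((k / (k + 1 : ℝ)) ^ m * D) := hmem hw
  have hball : ∀ t, real w t ∈ Metric.ball (w 0) δ := by
    intro t
    have h1 : (real w t).1 ∈ Metric.closedBall (w 0).1 ((k / (k + 1 : ℝ)) ^ m * D) :=
      bar_mem (convex_closedBall _ _) (fun i => hw'.2 i 0) t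
    exact lt_of_le_of_lt h1 hm
  obtain ⟨b, hb⟩ := hL (w 0) (mem_univ _)
  cases b
  · exact small_single_of_range_right _ fun t => hb (hball t)
  · exact small_single_of_range_left _ fun t => hb (hball t)

theorem exists_small {A B : Set X} (hA : IsOpen A) (hB : IsOpen B) (hAB : A ∪ B = univ)
    {k : ℕ} (d : Ch k X) : ∃ m, SmallCh A B k ((Sd k)^[m] d) := by
  induction d using Finsupp.induction_linear with
  | zero => exact ⟨0, 0, 0, by simp⟩
  | add c d hc hd =>
    obtain ⟨m, hm⟩ := hc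
    obtain ⟨l, hl⟩ := hd
    refine ⟨m + l, ?_⟩
    rw [iterate_map_add, small_iff]
    refine AddSubgroup.add_mem _ ?_ ?_
    · rw [← small_iff, add_comm, Function.iterate_add_apply]
      exact Sd_iter_small hm _
    · rw [← small_iff, Function.iterate_add_apply]
      exact Sd_iter_small hl _
  | single σ a =>
    obtain ⟨m, hm⟩ := exists_small_single hA hB hAB σ
    refine ⟨m, ?_⟩
    have h : (Finsupp.single σ a : Ch k X) = a • Finsupp.single σ 1 := by
      rw [Finsupp.smul_single, smul_eq_mul, mul_one]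
    rw [h, iterate_map_zsmul, small_iff]
    exact AddSubgroup.zsmul_mem _ (small_iff.1 hm) _

end

/-- the small simplices theorem (module MV2) -/
theorem mv2 : MV2Statement := by
  intro X _ A B hA hB hAB n d hd
  obtain ⟨m, hm⟩ := exists_small hA hB hAB d
  induction m generalizing d with
  | zero => exact ⟨d, 0, hm, by simp⟩
  | succ m ih =>
    rw [Function.iterate_succ_apply] at hm
    obtain ⟨d', y, hd', he⟩ := ih (Sd (n + 1) d) (by
      rw [bd_Sd]
      exact Sd_small hd) hm
    refine ⟨d' + Th n (bd n d), y + Th (n + 1) d, ?_, ?_⟩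
    · rw [small_iff]
      exact AddSubgroup.add_mem _ (small_iff.1 hd') (small_iff.1 (Th_small hd))
    · have h := bd_Th d
      rw [map_add]
      have h2 : d = Sd (n + 1) d + (bd (n + 1) (Th (n + 1) d) + Th n (bd n d)) := by
        rw [h]; abel
      conv_lhs => rw [h2, he]
      abel

end Pool.Agent.S1S3
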