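import Pool.Agent.Helper26_S1S3.Affine

/-!
# Barycentric subdivision of affine chains
-/

set_option autoImplicit false
set_option linter.unusedSectionVars false

open Set

noncomputable section

namespace Pool.Agent.S1S3

/-- the centre of the standard simplex -/
def ctr (k : ℕ) : Dl k := ⟨fun _ => 1 / (k + 1 : ℝ), by
  refine ⟨fun _ => by positivity, ?_⟩
  rw [Finset.sum_const, Finset.card_univ, Fintype.card_fin, nsmul_eq_mul]
  push_cast
  field_simp⟩

/-- the barycentre of an affine simplex -/
def bar {k N : ℕ} (v : Fin (k + 1) → Dl N) : Dl N := real v (ctr k)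

theorem bar_val {k N : ℕ} (v : Fin (k + 1) → Dl N) :
    (bar v).1 = ∑ i, (1 / (k + 1 : ℝ)) • (v i).1 := rfl

theorem real_bar {k N M : ℕ} (v : Fin (k + 1) → Dl N) (w : Fin (N + 1) → Dl M) :
    real w (bar v) = bar fun i => real w (v i) := by
  unfold bar
  rw [← real_comp]
  rfl

theorem bar_zero {N : ℕ} (v : Fin (0 + 1) → Dl N) : bar v = v 0 := by
  apply Subtype.ext
  rw [bar_val]
  simp

/-- push forward of affine chains -/
def pushA (k : ℕ) {N M : ℕ} (w : Fin (N + 1) → Dl M) : AC k N →+ AC k M :=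
  liftZ fun v => Finsupp.single (fun i => real w (v i)) 1

theorem pushA_single {k N M : ℕ} (w : Fin (N + 1) → Dl M) (v : Fin (k + 1) → Dl N) :
    pushA k w (Finsupp.single v 1) = Finsupp.single (fun i => real w (v i)) 1 := by
  rw [pushA, liftZ_single_one]

theorem pushA_bdA {k N M : ℕ} (w : Fin (N + 1) → Dl M) (c : AC (k + 1) N) :
    pushA k w (bdA k c) = bdA k (pushA (k + 1) w c) := by
  apply eq_of_single_one ((pushA k w).comp (bdA k)) ((bdA k).comp (pushA (k + 1) w))
  intro v
  simp only [AddMonoidHom.comp_apply, pushA_single, bdA_single, map_sum, map_zsmul]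

theorem pushA_cone {k N M : ℕ} (w : Fin (N + 1) → Dl M) (b : Dl N) (c : AC k N) :
    pushA (k + 1) w (cone b k c) = cone (real w b) k (pushA k w c) := by
  apply eq_of_single_one ((pushA (k + 1) w).comp (cone b k))
    ((cone (real w b) k).comp (pushA k w))
  intro v
  simp only [AddMonoidHom.comp_apply, pushA_single, cone_single]
  congr 1
  ext i : 1
  refine Fin.cases ?_ (fun i => ?_) i
  · rfl
  · rfl

/-- barycentric subdivision -/
def sdA : ∀ (k : ℕ) {N : ℕ}, AC k N →+ AC k N
  | 0, _ => AddMonoidHom.id _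
  | k + 1, _ => liftZ fun v => cone (bar v) k (sdA k (bdA k (Finsupp.single v 1)))

/-- the homotopy between the identity and the barycentric subdivision -/
def TA : ∀ (k : ℕ) {N : ℕ}, AC k N →+ AC (k + 1) N
  | 0, _ => liftZ fun v => cone (bar v) 0 (Finsupp.single v 1)
  | k + 1, _ => liftZ fun v => cone (bar v) (k + 1)
      (Finsupp.single v 1 - TA k (bdA k (Finsupp.single v 1)))

theorem sdA_zero {N : ℕ} (c : AC 0 N) : sdA 0 c = c := rfl

theorem sdA_succ {k N : ℕ} (v : Fin (k + 2) → Dl N) :
    sdA (k + 1) (Finsupp.single v 1) =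
      cone (bar v) k (sdA k (bdA k (Finsupp.single v 1))) := by
  rw [sdA, liftZ_single_one]

theorem TA_zero {N : ℕ} (v : Fin (0 + 1) → Dl N) :
    TA 0 (Finsupp.single v 1) = cone (bar v) 0 (Finsupp.single v 1) := by
  rw [TA, liftZ_single_one]

theorem TA_succ {k N : ℕ} (v : Fin (k + 2) → Dl N) :
    TA (k + 1) (Finsupp.single v 1) = cone (bar v) (k + 1)
      (Finsupp.single v 1 - TA k (bdA k (Finsupp.single v 1))) := by
  rw [TA, liftZ_single_one]

theorem bdA_sdA : ∀ (k : ℕ) {N : ℕ} (c : AC (k + 1) N), bdA k (sdA (k + 1) c) = sdA k (bdA k c)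
  | 0, N, c => by
    apply eq_of_single_one ((bdA 0).comp (sdA 1)) ((sdA 0).comp (bdA 0))
    intro v
    simp only [AddMonoidHom.comp_apply]
    rw [sdA_succ, sdA_zero, bdA_cone_zero, augA_bdA, zero_smul, sub_zero]
  | k + 1, N, c => by
    apply eq_of_single_one ((bdA (k + 1)).comp (sdA (k + 2))) ((sdA (k + 1)).comp (bdA (k + 1)))
    intro v
    simp only [AddMonoidHom.comp_apply]
    rw [sdA_succ, bdA_cone, bdA_sdA k, bdA_bdA, map_zero, map_zero, sub_zero]

theorem bdA_TA_zero {N : ℕ} (c : AC 0 N) : bdA 0 (TA 0 c) = 0 := by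
  apply eq_of_single_one ((bdA 0).comp (TA 0)) 0
  intro v
  simp only [AddMonoidHom.comp_apply, AddMonoidHom.zero_apply]
  rw [TA_zero, bdA_cone_zero, augA, liftZ_single_one, one_smul, sub_eq_zero, bar_zero]
  congr 1
  ext j : 1
  fin_cases j
  rfl

theorem bdA_TA : ∀ (k : ℕ) {N : ℕ} (c : AC (k + 1) N),
    bdA (k + 1) (TA (k + 1) c) + TA k (bdA k c) = c - sdA (k + 1) c
  | 0, N, c => by
    have key := eq_of_single_one ((bdA 1).comp (TA 1) + (TA 0).comp (bdA 0))
      (AddMonoidHom.id (AC 1 N) - sdA 1) ?_ c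
    · exact key
    intro v
    simp only [AddMonoidHom.comp_apply, AddMonoidHom.add_apply, AddMonoidHom.sub_apply,
      AddMonoidHom.id_apply]
    rw [TA_succ, bdA_cone, sdA_succ, sdA_zero, map_sub, bdA_TA_zero, sub_zero]
    abel
  | k + 1, N, c => by
    have key := eq_of_single_one ((bdA (k + 2)).comp (TA (k + 2)) + (TA (k + 1)).comp (bdA (k + 1)))
      (AddMonoidHom.id (AC (k + 2) N) - sdA (k + 2)) ?_ c
    · exact key
    intro v
    simp only [AddMonoidHom.comp_apply, AddMonoidHom.add_apply, AddMonoidHom.sub_apply,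
      AddMonoidHom.id_apply]
    have h := bdA_TA k (bdA (k + 1) (Finsupp.single v 1 : AC (k + 2) N))
    rw [bdA_bdA, map_zero, add_zero] at h
    rw [TA_succ, bdA_cone, sdA_succ, map_sub, h, sub_sub_cancel]
    abel

theorem pushA_sdA : ∀ (k : ℕ) {N M : ℕ} (w : Fin (N + 1) → Dl M) (c : AC k N),
    pushA k w (sdA k c) = sdA k (pushA k w c)
  | 0, N, M, w, c => rfl
  | k + 1, N, M, w, c => by
    apply eq_of_single_one ((pushA (k + 1) w).comp (sdA (k + 1)))
      ((sdA (k + 1)).comp (pushA (k + 1) w))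
    intro v
    simp only [AddMonoidHom.comp_apply]
    rw [sdA_succ, pushA_cone, pushA_sdA k, pushA_bdA, pushA_single, sdA_succ, real_bar]

theorem pushA_TA : ∀ (k : ℕ) {N M : ℕ} (w : Fin (N + 1) → Dl M) (c : AC k N),
    pushA (k + 1) w (TA k c) = TA k (pushA k w c)
  | 0, N, M, w, c => by
    apply eq_of_single_one ((pushA 1 w).comp (TA 0)) ((TA 0).comp (pushA 0 w))
    intro v
    simp only [AddMonoidHom.comp_apply]
    rw [TA_zero, pushA_cone, pushA_single, TA_zero, real_bar]
  | k + 1, N, M, w, c => by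
    apply eq_of_single_one ((pushA (k + 2) w).comp (TA (k + 1)))
      ((TA (k + 1)).comp (pushA (k + 1) w))
    intro v
    simp only [AddMonoidHom.comp_apply]
    rw [TA_succ, pushA_cone, map_sub, pushA_TA k, pushA_bdA, pushA_single, TA_succ, real_bar]

/-! ### realization -/

/-- the singular chain of an affine chain -/
def re (k : ℕ) {N : ℕ} : AC k N →+ Ch k (Dl N) := liftZ fun v => Finsupp.single (real v) 1

theorem re_single {k N : ℕ} (v : Fin (k + 1) → Dl N) :
    re k (Finsupp.single v 1) = Finsupp.single (real v) 1 := by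
  rw [re, liftZ_single_one]

theorem bd_re {k N : ℕ} (c : AC (k + 1) N) : bd k (re (k + 1) c) = re k (bdA k c) := by
  apply eq_of_single_one ((bd k).comp (re (k + 1))) ((re k).comp (bdA k))
  intro v
  simp only [AddMonoidHom.comp_apply]
  rw [re_single, bd_single, bdA_single, map_sum]
  refine Finset.sum_congr rfl fun i _ => ?_
  rw [map_zsmul, re_single, real_faceC, mul_one, Finsupp.smul_single, smul_eq_mul, mul_one]

theorem push_re {k N M : ℕ} (w : Fin (N + 1) → Dl M) (c : AC k N) :
    push k (real w) (re k c) = re k (pushA k w c) := by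
  apply eq_of_single_one ((push k (real w)).comp (re k)) ((re k).comp (pushA k w))
  intro v
  simp only [AddMonoidHom.comp_apply]
  rw [re_single, push_single, pushA_single, re_single, real_comp]

/-! ### subdivision of singular chains -/

/-- subdivision of singular chains -/
def Sd (k : ℕ) {X : Type} [TopologicalSpace X] : Ch k X →+ Ch k X :=
  liftZ fun σ => push k σ (re k (sdA k (Finsupp.single (vert k) 1)))

/-- the homotopy on singular chains -/
def Th (k : ℕ) {X : Type} [TopologicalSpace X] : Ch k X →+ Ch (k + 1) X :=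
  liftZ fun σ => push (k + 1) σ (re (k + 1) (TA k (Finsupp.single (vert k) 1)))

section

variable {X Y : Type} [TopologicalSpace X] [TopologicalSpace Y]

theorem Sd_single {k : ℕ} (σ : Sx k X) :
    Sd k (Finsupp.single σ 1) = push k σ (re k (sdA k (Finsupp.single (vert k) 1))) := by
  rw [Sd, liftZ_single_one]

theorem Th_single {k : ℕ} (σ : Sx k X) :
    Th k (Finsupp.single σ 1) = push (k + 1) σ (re (k + 1) (TA k (Finsupp.single (vert k) 1))) := by
  rw [Th, liftZ_single_one]

theorem push_Sd {k : ℕ} (f : C(X, Y)) (c : Ch k X) : push k f (Sd k c) = Sd k (push k f c) := by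
  apply eq_of_single_one ((push k f).comp (Sd k)) ((Sd k).comp (push k f))
  intro σ
  simp only [AddMonoidHom.comp_apply]
  rw [Sd_single, push_push, push_single, Sd_single]

theorem push_Th {k : ℕ} (f : C(X, Y)) (c : Ch k X) :
    push (k + 1) f (Th k c) = Th k (push k f c) := by
  apply eq_of_single_one ((push (k + 1) f).comp (Th k)) ((Th k).comp (push k f))
  intro σ
  simp only [AddMonoidHom.comp_apply]
  rw [Th_single, push_push, push_single, Th_single]

theorem vert_face (k : ℕ) (i : Fin (k + 2)) :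
    (Finsupp.single (fun j => vert (k + 1) (i.succAbove j)) 1 : AC k (k + 1)) =
      pushA k (fun j => vert (k + 1) (i.succAbove j)) (Finsupp.single (vert k) 1) := by
  rw [pushA_single]
  congr 1
  ext j : 1
  rw [real_vert]

theorem real_vert_face (k : ℕ) (i : Fin (k + 2)) :
    real (fun j => vert (k + 1) (i.succAbove j)) = faceC k i := by
  rw [← real_faceC, real_vert_eq]
  rfl

theorem Sd_re {k N : ℕ} (c : AC k N) : Sd k (re k c) = re k (sdA k c) := by
  apply eq_of_single_one ((Sd k).comp (re k)) ((re k).comp (sdA k))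
  intro v
  simp only [AddMonoidHom.comp_apply]
  rw [re_single, Sd_single, push_re, pushA_sdA, pushA_single]
  simp only [real_vert]

theorem Th_re {k N : ℕ} (c : AC k N) : Th k (re k c) = re (k + 1) (TA k c) := by
  apply eq_of_single_one ((Th k).comp (re k)) ((re (k + 1)).comp (TA k))
  intro v
  simp only [AddMonoidHom.comp_apply]
  rw [re_single, Th_single, push_re, pushA_TA, pushA_single]
  simp only [real_vert]

theorem re_vert (k : ℕ) : re k (Finsupp.single (vert k) 1) =
    Finsupp.single (ContinuousMap.id (Dl k)) 1 := by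
  rw [re_single, real_vert_eq]

theorem single_eq_push {k : ℕ} (σ : Sx k X) :
    (Finsupp.single σ 1 : Ch k X) = push k σ (re k (Finsupp.single (vert k) 1)) := by
  rw [re_vert, push_single]
  rfl

theorem bd_Sd {k : ℕ} (c : Ch (k + 1) X) : bd k (Sd (k + 1) c) = Sd k (bd k c) := by
  apply eq_of_single_one ((bd k).comp (Sd (k + 1))) ((Sd k).comp (bd k))
  intro σ
  simp only [AddMonoidHom.comp_apply]
  rw [single_eq_push σ, ← push_Sd, bd_push, bd_push, ← push_Sd, Sd_re, bd_re, bd_re, Sd_re,
    bdA_sdA]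

theorem bd_Th_zero (c : Ch 0 X) : bd 0 (Th 0 c) = 0 := by
  apply eq_of_single_one ((bd 0).comp (Th 0)) 0
  intro σ
  simp only [AddMonoidHom.comp_apply, AddMonoidHom.zero_apply]
  rw [single_eq_push σ, ← push_Th, bd_push, Th_re, bd_re, bdA_TA_zero, map_zero, map_zero]

theorem Sd_zero (c : Ch 0 X) : Sd 0 c = c := by
  apply eq_of_single_one (Sd 0) (AddMonoidHom.id _)
  intro σ
  rw [AddMonoidHom.id_apply, Sd_single, sdA_zero, ← single_eq_push]

theorem bd_Th {k : ℕ} (c : Ch (k + 1) X) :
    bd (k + 1) (Th (k + 1) c) + Th k (bd k c) = c - Sd (k + 1) c := by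
  have key := eq_of_single_one ((bd (k + 1)).comp (Th (k + 1)) + (Th k).comp (bd k))
    (AddMonoidHom.id (Ch (k + 1) X) - Sd (k + 1)) ?_ c
  · exact key
  intro σ
  simp only [AddMonoidHom.comp_apply, AddMonoidHom.add_apply, AddMonoidHom.sub_apply,
    AddMonoidHom.id_apply]
  rw [single_eq_push σ, ← push_Sd, ← push_Th, bd_push, bd_push, ← push_Th, Sd_re, Th_re, bd_re,
    bd_re, Th_re, ← map_add, ← map_sub, ← map_add, ← map_sub, bdA_TA]

end

end Pool.Agent.S1S3
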